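import Mathlib
import Pool.Agent.N733.TG.K
import Pool.Agent.Results.MP_f7abf1_nt.ModelRates

set_option autoImplicit false

/-! From bounds in the dyadic intervals, for all times up to `(1 + τ) i`, to the number of the `n ≤ X` which are bad at
some time (helper60). -/

namespace Pool.Agent.N60.MR

open Finset

open Classical in
theorem dyadic_count {R : ℕ → ℕ → Prop} {τ s C : ℝ} (hτ0 : 0 < τ) (hτ1 : τ ≤ 1) (hs : 0 ≤ s) (hC : 0 < C)
    (h : ∀ i j : ℕ, (j : ℝ) ≤ (1 + τ) * i →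
      (((Ioc (2 ^ i) (2 ^ (i + 1))).filter (fun n => R j n)).card : ℝ) ≤ C * ((2 : ℝ) ^ i) ^ s) :
    ∀ ε : ℝ, 0 < ε → ∃ K : ℝ, ∀ X : ℕ, 1 ≤ X →
      ({n : ℕ | 1 ≤ n ∧ n ≤ X ∧ True ∧ ¬ ∀ j : ℕ, (j : ℝ) ≤ (1 + τ / 2) * Real.logb 2 n → ¬ R j n}.ncard : ℝ) ≤
        K * (X : ℝ) ^ (s + ε) := by
  intro ε hε
  obtain ⟨I0, hI0⟩ : ∃ I0 : ℕ, I0 = ⌈(2 + τ) / τ⌉₊ := ⟨_, rfl⟩
  have hI : (2 + τ) / τ ≤ I0 := by rw [hI0]; exact Nat.le_ceil _
  have hl2 : 0 < Real.log 2 := Real.log_pos (by norm_num)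
  obtain ⟨A, hA⟩ : ∃ A : ℝ, A = 1 / (ε / 2 * Real.log 2) := ⟨_, rfl⟩
  have hA0 : 0 < A := by rw [hA]; positivity
  refine ⟨2 ^ I0 + (A + 1) * (2 * A + 1) * C, fun X hX => ?_⟩
  have hX1 : (1 : ℝ) ≤ X := by exact_mod_cast hX
  have hX0 : (0 : ℝ) < X := by linarith
  obtain ⟨L, hL⟩ : ∃ L : ℕ, L = Nat.log 2 X := ⟨_, rfl⟩
  have hLX : (2 : ℝ) ^ L ≤ X := by
    have : 2 ^ L ≤ X := by rw [hL]; exact Nat.pow_log_le_self 2 (by omega)
    exact_mod_cast this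
  -- the covering
  have hsub : {n : ℕ | 1 ≤ n ∧ n ≤ X ∧ True ∧ ¬ ∀ j : ℕ, (j : ℝ) ≤ (1 + τ / 2) * Real.logb 2 n → ¬ R j n} ⊆
      ((Icc 1 (2 ^ I0) ∪ (range (L + 1)).biUnion (fun i =>
        ((range (2 * i + 1)).filter (fun j : ℕ => (j : ℝ) ≤ (1 + τ) * i)).biUnion
        (fun j => (Ioc (2 ^ i) (2 ^ (i + 1))).filter (fun n => R j n))) : Finset ℕ) : Set ℕ) := by
    rintro n ⟨h1, h2, -, h3⟩
    push Not at h3
    obtain ⟨j, hj, hR⟩ := h3
    rw [Finset.mem_coe, Finset.mem_union]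
    rcases le_or_gt n (2 ^ I0) with hn | hn
    · left; rw [Finset.mem_Icc]; exact ⟨h1, hn⟩
    · right
      obtain ⟨i, hi⟩ : ∃ i : ℕ, i = Nat.log 2 (n - 1) := ⟨_, rfl⟩
      have hn1 : n - 1 ≠ 0 := by
        have : 1 ≤ 2 ^ I0 := Nat.one_le_two_pow
        omega
      have e1 : 2 ^ i ≤ n - 1 := by rw [hi]; exact Nat.pow_log_le_self 2 hn1
      have e2 : n - 1 < 2 ^ (i + 1) := by rw [hi]; exact Nat.lt_pow_succ_log_self (by norm_num) _
      have e3 : I0 ≤ i := by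
        rw [hi]
        exact Nat.le_log_of_pow_le (by norm_num) (by omega)
      have e4 : i ≤ L := by
        rw [hi, hL]
        exact Nat.log_mono_right (by omega)
      have hlog : Real.logb 2 n ≤ i + 1 := by
        have h5 : (n : ℝ) ≤ (2 : ℝ) ^ ((i : ℝ) + 1) := by
          have h6 : n ≤ 2 ^ (i + 1) := by omega
          have h7 : (n : ℝ) ≤ (2 : ℝ) ^ (i + 1) := by exact_mod_cast h6
          have h8 : (2 : ℝ) ^ ((i : ℝ) + 1) = (2 : ℝ) ^ (i + 1) := by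
            rw [← Real.rpow_natCast]; push_cast; rfl
          rw [h8]; exact h7
        have hn0 : (0 : ℝ) < n := by exact_mod_cast h1
        exact (Real.logb_le_iff_le_rpow (by norm_num) hn0).2 h5
      have hi0 : (0 : ℝ) ≤ i := Nat.cast_nonneg i
      have hj2 : (j : ℝ) ≤ (1 + τ) * i := by
        have h5 : (2 + τ) / τ ≤ (i : ℝ) := hI.trans (by exact_mod_cast e3)
        rw [div_le_iff₀ hτ0] at h5
        have h6 : (j : ℝ) ≤ (1 + τ / 2) * (i + 1) :=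
          hj.trans (mul_le_mul_of_nonneg_left hlog (by linarith))
        nlinarith
      have hj3 : j < 2 * i + 1 := by
        have h5 : (j : ℝ) ≤ 2 * i := by nlinarith
        have h6 : j ≤ 2 * i := by exact_mod_cast h5
        omega
      rw [Finset.mem_biUnion]
      refine ⟨i, Finset.mem_range.2 (by omega), ?_⟩
      rw [Finset.mem_biUnion]
      refine ⟨j, ?_, ?_⟩
      · rw [Finset.mem_filter, Finset.mem_range]
        exact ⟨hj3, hj2⟩
      · rw [Finset.mem_filter, Finset.mem_Ioc]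
        exact ⟨⟨by omega, by omega⟩, hR⟩
  have hcard := Set.ncard_le_ncard hsub (Finset.finite_toSet _)
  rw [Set.ncard_coe_finset] at hcard
  have h0 : (({n : ℕ | 1 ≤ n ∧ n ≤ X ∧ True ∧
      ¬ ∀ j : ℕ, (j : ℝ) ≤ (1 + τ / 2) * Real.logb 2 n → ¬ R j n}.ncard : ℕ) : ℝ) ≤
      ((Icc 1 (2 ^ I0) : Finset ℕ).card : ℝ) + ∑ i ∈ range (L + 1),
        ∑ j ∈ (range (2 * i + 1)).filter (fun j : ℕ => (j : ℝ) ≤ (1 + τ) * i),
          (((Ioc (2 ^ i) (2 ^ (i + 1))).filter (fun n => R j n)).card : ℝ) := by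
    have h1 := hcard.trans (Finset.card_union_le _ _)
    have h2 : ((range (L + 1)).biUnion (fun i =>
        ((range (2 * i + 1)).filter (fun j : ℕ => (j : ℝ) ≤ (1 + τ) * i)).biUnion
        (fun j => (Ioc (2 ^ i) (2 ^ (i + 1))).filter (fun n => R j n)))).card ≤
        ∑ i ∈ range (L + 1), ∑ j ∈ (range (2 * i + 1)).filter (fun j : ℕ => (j : ℝ) ≤ (1 + τ) * i),
          ((Ioc (2 ^ i) (2 ^ (i + 1))).filter (fun n => R j n)).card :=
      Finset.card_biUnion_le.trans (Finset.sum_le_sum fun i _ => Finset.card_biUnion_le)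
    have h3 := h1.trans (Nat.add_le_add_left h2 _)
    exact_mod_cast h3
  have hIcc : ((Icc 1 (2 ^ I0) : Finset ℕ).card : ℝ) = 2 ^ I0 := by
    rw [Nat.card_Icc]
    push_cast [Nat.add_sub_cancel]
    rfl
  have hinner : ∀ i ∈ range (L + 1),
      ∑ j ∈ (range (2 * i + 1)).filter (fun j : ℕ => (j : ℝ) ≤ (1 + τ) * i),
        (((Ioc (2 ^ i) (2 ^ (i + 1))).filter (fun n => R j n)).card : ℝ) ≤ (2 * L + 1) * (C * (X : ℝ) ^ s) := by
    intro i hi
    have hiL : i ≤ L := by have := Finset.mem_range.1 hi; omega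
    have h1 : ∀ j ∈ (range (2 * i + 1)).filter (fun j : ℕ => (j : ℝ) ≤ (1 + τ) * i),
        (((Ioc (2 ^ i) (2 ^ (i + 1))).filter (fun n => R j n)).card : ℝ) ≤ C * (X : ℝ) ^ s := by
      intro j hj
      refine (h i j (Finset.mem_filter.1 hj).2).trans ?_
      apply mul_le_mul_of_nonneg_left _ hC.le
      apply Real.rpow_le_rpow (by positivity) _ hs
      exact (pow_le_pow_right₀ (by norm_num) hiL).trans hLX
    have h2 := Finset.sum_le_card_nsmul _ _ _ h1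
    refine h2.trans ?_
    rw [nsmul_eq_mul]
    apply mul_le_mul_of_nonneg_right _ (by positivity)
    have h3 : ((range (2 * i + 1)).filter (fun j : ℕ => (j : ℝ) ≤ (1 + τ) * i)).card ≤ 2 * L + 1 := by
      refine (Finset.card_filter_le _ _).trans ?_
      rw [Finset.card_range]
      omega
    exact_mod_cast h3
  have hsum : ∑ i ∈ range (L + 1),
        ∑ j ∈ (range (2 * i + 1)).filter (fun j : ℕ => (j : ℝ) ≤ (1 + τ) * i),
          (((Ioc (2 ^ i) (2 ^ (i + 1))).filter (fun n => R j n)).card : ℝ) ≤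
        (L + 1) * ((2 * L + 1) * (C * (X : ℝ) ^ s)) := by
    refine (Finset.sum_le_card_nsmul _ _ _ hinner).trans ?_
    rw [nsmul_eq_mul, Finset.card_range]
    push_cast
    exact le_refl _
  -- logarithms
  have hLlog : (L : ℝ) ≤ A * (X : ℝ) ^ (ε / 2) := by
    have h1 : (L : ℝ) * Real.log 2 ≤ Real.log X := by
      rw [← Real.log_pow]
      exact Real.log_le_log (by positivity) hLX
    have h2 : Real.log X ≤ (X : ℝ) ^ (ε / 2) / (ε / 2) := Real.log_le_rpow_div hX0.le (by positivity)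
    have h3 : (L : ℝ) ≤ (X : ℝ) ^ (ε / 2) / (ε / 2) / Real.log 2 := by
      rw [le_div_iff₀ hl2]
      linarith
    refine h3.trans (le_of_eq ?_)
    rw [hA]
    field_simp
  have hXe : (1 : ℝ) ≤ (X : ℝ) ^ (ε / 2) := Real.one_le_rpow hX1 (by positivity)
  have hXs : (0 : ℝ) < (X : ℝ) ^ s := Real.rpow_pos_of_pos hX0 _
  have hprod : ((L : ℝ) + 1) * (2 * L + 1) ≤ (A + 1) * (2 * A + 1) * (X : ℝ) ^ ε := by
    have h1 : (L : ℝ) + 1 ≤ (A + 1) * (X : ℝ) ^ (ε / 2) := by nlinarith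
    have h2 : 2 * (L : ℝ) + 1 ≤ (2 * A + 1) * (X : ℝ) ^ (ε / 2) := by nlinarith
    have h3 : (X : ℝ) ^ ε = (X : ℝ) ^ (ε / 2) * (X : ℝ) ^ (ε / 2) := by
      rw [← Real.rpow_add hX0]
      ring_nf
    have h4 : (0 : ℝ) ≤ L := Nat.cast_nonneg L
    calc ((L : ℝ) + 1) * (2 * L + 1) ≤ ((A + 1) * (X : ℝ) ^ (ε / 2)) * ((2 * A + 1) * (X : ℝ) ^ (ε / 2)) :=
          mul_le_mul h1 h2 (by linarith) (by positivity)
      _ = (A + 1) * (2 * A + 1) * (X : ℝ) ^ ε := by rw [h3]; ring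
  have hXse : (X : ℝ) ^ (s + ε) = (X : ℝ) ^ s * (X : ℝ) ^ ε := Real.rpow_add hX0 _ _
  have hXse1 : (1 : ℝ) ≤ (X : ℝ) ^ (s + ε) := Real.one_le_rpow hX1 (by linarith)
  refine h0.trans ?_
  rw [hIcc]
  have h5 : ((L : ℝ) + 1) * ((2 * L + 1) * (C * (X : ℝ) ^ s)) ≤
      (A + 1) * (2 * A + 1) * C * (X : ℝ) ^ (s + ε) := by
    calc ((L : ℝ) + 1) * ((2 * L + 1) * (C * (X : ℝ) ^ s)) = (((L : ℝ) + 1) * (2 * L + 1)) * (C * (X : ℝ) ^ s) := by
          ring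
      _ ≤ ((A + 1) * (2 * A + 1) * (X : ℝ) ^ ε) * (C * (X : ℝ) ^ s) :=
          mul_le_mul_of_nonneg_right hprod (by positivity)
      _ = _ := by rw [hXse]; ring
  have h6 : (2 : ℝ) ^ I0 ≤ 2 ^ I0 * (X : ℝ) ^ (s + ε) := by
    have : (0 : ℝ) < 2 ^ I0 := by positivity
    nlinarith
  calc (2 : ℝ) ^ I0 + _ ≤ 2 ^ I0 * (X : ℝ) ^ (s + ε) + (A + 1) * (2 * A + 1) * C * (X : ℝ) ^ (s + ε) := by
        linarith [hsum.trans h5]
    _ = _ := by ring

end Pool.Agent.N60.MR
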