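import Mathlib
import Pool.Agent.N60.MR.Count

set_option autoImplicit false

/-! The rate function is Lipschitz in the interior, and the bound of `ModelRates` for all slopes at once (helper60). -/

namespace Pool.Agent.N60.MR

open Finset
open Pool.Agent.Results.MP_f7abf1_nt (ModelRates.result)
open Pool.Agent.Results.MP_f7abf1_nt.ModelRates (T g)

/-- the function under the supremum -/
noncomputable def ph (a θ : ℝ) : ℝ := θ * a - Real.log ((1 / 2) * ((2 : ℝ) ^ θ + (2 / 3 : ℝ) ^ θ))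

lemma g_def (a : ℝ) : g a = ⨆ θ : ℝ, ph a θ := rfl

lemma ph_zero (a : ℝ) : ph a 0 = 0 := by
  unfold ph
  rw [Real.rpow_zero, Real.rpow_zero]
  norm_num

lemma ph_le {a δ θ : ℝ} (h1 : -Real.log (3 / 2) + δ ≤ a) (h2 : a ≤ Real.log 2 - δ) (hδ : 0 ≤ δ) :
    ph a θ ≤ Real.log 2 - |θ| * δ := by
  unfold ph
  have hA : (0 : ℝ) < 2 ^ θ := Real.rpow_pos_of_pos (by norm_num) _
  have hB : (0 : ℝ) < (2 / 3 : ℝ) ^ θ := Real.rpow_pos_of_pos (by norm_num) _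
  have e32 : Real.log (2 / 3) = -Real.log (3 / 2) := by
    rw [← Real.log_inv]
    norm_num
  rcases le_total 0 θ with h | h
  · have h3 : Real.log ((1 / 2) * (2 : ℝ) ^ θ) ≤ Real.log ((1 / 2) * ((2 : ℝ) ^ θ + (2 / 3 : ℝ) ^ θ)) :=
      Real.log_le_log (by positivity) (by linarith)
    rw [Real.log_mul (by norm_num) hA.ne', Real.log_rpow (by norm_num), one_div, Real.log_inv] at h3
    rw [one_div, abs_of_nonneg h]
    nlinarith
  · have h3 : Real.log ((1 / 2) * (2 / 3 : ℝ) ^ θ) ≤ Real.log ((1 / 2) * ((2 : ℝ) ^ θ + (2 / 3 : ℝ) ^ θ)) :=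
      Real.log_le_log (by positivity) (by linarith)
    rw [Real.log_mul (by norm_num) hB.ne', Real.log_rpow (by norm_num), one_div, Real.log_inv, e32] at h3
    rw [one_div, abs_of_nonpos h]
    nlinarith

lemma ph_bdd {a δ : ℝ} (h1 : -Real.log (3 / 2) + δ ≤ a) (h2 : a ≤ Real.log 2 - δ) (hδ : 0 ≤ δ) :
    BddAbove (Set.range (ph a)) := by
  refine ⟨Real.log 2, ?_⟩
  rintro _ ⟨θ, rfl⟩
  have := ph_le (θ := θ) h1 h2 hδ
  have h3 : 0 ≤ |θ| * δ := by positivity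
  linarith

lemma g_nonneg {a δ : ℝ} (h1 : -Real.log (3 / 2) + δ ≤ a) (h2 : a ≤ Real.log 2 - δ) (hδ : 0 ≤ δ) : 0 ≤ g a := by
  rw [g_def, ← ph_zero a]
  exact le_ciSup (ph_bdd h1 h2 hδ) 0

/-- `g` is Lipschitz in the interior -/
lemma g_lip {a b δ : ℝ} (ha1 : -Real.log (3 / 2) + δ ≤ a) (ha2 : a ≤ Real.log 2 - δ)
    (hb1 : -Real.log (3 / 2) + δ ≤ b) (hb2 : b ≤ Real.log 2 - δ) (hδ : 0 < δ) :
    g a ≤ g b + 2 / δ * |a - b| := by
  have hg := g_nonneg hb1 hb2 hδ.le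
  have hab : 0 ≤ |a - b| := abs_nonneg _
  rw [g_def a]
  apply ciSup_le
  intro θ
  rcases le_or_gt |θ| (2 / δ) with h | h
  · have h1 : ph a θ = ph b θ + θ * (a - b) := by unfold ph; ring
    have h2 : ph b θ ≤ g b := by
      rw [g_def]
      exact le_ciSup (ph_bdd hb1 hb2 hδ.le) θ
    have h3 : θ * (a - b) ≤ |θ| * |a - b| := by
      rw [← abs_mul]
      exact le_abs_self _
    have h4 : |θ| * |a - b| ≤ 2 / δ * |a - b| := mul_le_mul_of_nonneg_right h hab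
    linarith
  · have h1 := ph_le (θ := θ) ha1 ha2 hδ.le
    have h2 : 2 < |θ| * δ := by
      rw [div_lt_iff₀ hδ] at h
      exact h
    have h3 : Real.log 2 < 1 := by
      have := Real.log_two_lt_d9
      linarith
    have h4 : 0 ≤ 2 / δ * |a - b| := by positivity
    linarith

/-- the bad event: at the time `j` the trajectory is too slow or too fast, for a slope of cost at least `η log n` -/
def Bad (δ η : ℝ) (j n : ℕ) : Prop :=
  ∃ a : ℝ, η * Real.log n ≤ j * g a ∧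
    ((-Real.log (3 / 2) + δ ≤ a ∧ a ≤ 1 / 2 * Real.log (4 / 3) ∧ (n : ℝ) * Real.exp (-(a * j)) ≤ (T^[j] n : ℕ)) ∨
      (1 / 2 * Real.log (4 / 3) ≤ a ∧ a ≤ Real.log 2 - δ ∧ ((T^[j] n : ℕ) : ℝ) ≤ n * Real.exp (-(a * j))))

lemma exp_le_of {e0 y : ℝ} (he0 : 0 < e0) (h : 1 / e0 ≤ y) : Real.exp (-y) ≤ e0 := by
  have h1 : Real.exp (-y) ≤ Real.exp (-(1 / e0)) := Real.exp_le_exp.2 (by linarith)
  have h2 := Real.add_one_le_exp (1 / e0)
  have h3 : 0 < 1 / e0 := by positivity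
  refine h1.trans ?_
  rw [Real.exp_neg]
  have h4 : (Real.exp (1 / e0))⁻¹ ≤ (1 / e0)⁻¹ := inv_anti₀ h3 (by linarith)
  refine h4.trans (le_of_eq ?_)
  rw [one_div, inv_inv]

open Classical in
/-- one slope, one dyadic interval -/
theorem one_slope {δ τ C e0 : ℝ} (hE : Real.exp (-(δ / (4000 * τ))) ≤ e0) (hC : 0 < C)
    (h : ∀ x : ℝ, 1 ≤ x → ∀ k : ℕ, (k : ℝ) ≤ (1 + τ) * Real.logb 2 x →
      (∀ a : ℝ, -Real.log (3 / 2) + δ ≤ a → a ≤ 1 / 2 * Real.log (4 / 3) → ∀ u : ℕ, x ≤ u →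
        ({n : ℕ | u < n ∧ (n : ℝ) ≤ u + x ∧ (n : ℝ) * Real.exp (-(a * k)) ≤ (T^[k] n : ℕ)}.ncard : ℝ) ≤
          C * x ^ (1 + Real.exp (-(δ / (4000 * τ)))) * Real.exp (-(k * g a))) ∧
      (∀ a : ℝ, 1 / 2 * Real.log (4 / 3) ≤ a → a ≤ Real.log 2 - δ → ∀ u : ℕ,
        ({n : ℕ | u < n ∧ (n : ℝ) ≤ u + x ∧ (T^[k] n : ℕ) ≤ (n : ℝ) * Real.exp (-(a * k))}.ncard : ℝ) ≤
          C * x ^ (1 + Real.exp (-(δ / (4000 * τ)))) * Real.exp (-(k * g a))))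
    {η : ℝ} (hη : 0 ≤ η) (i j : ℕ) (hj : (j : ℝ) ≤ (1 + τ) * i) (a : ℝ) :
    (((Ioc ((2 : ℕ) ^ i) ((2 : ℕ) ^ (i + 1))).filter (fun n : ℕ => η * Real.log n ≤ j * g a ∧
      ((-Real.log (3 / 2) + δ ≤ a ∧ a ≤ 1 / 2 * Real.log (4 / 3) ∧ (n : ℝ) * Real.exp (-(a * j)) ≤ (T^[j] n : ℕ)) ∨
      (1 / 2 * Real.log (4 / 3) ≤ a ∧ a ≤ Real.log 2 - δ ∧ ((T^[j] n : ℕ) : ℝ) ≤ n * Real.exp (-(a * j)))))).card : ℝ) ≤
      2 * C * ((2 : ℝ) ^ i) ^ (1 - η + e0) := by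
  obtain ⟨x, hx⟩ : ∃ x : ℝ, x = (2 : ℝ) ^ i := ⟨_, rfl⟩
  have hx1 : 1 ≤ x := by rw [hx]; exact one_le_pow₀ (by norm_num)
  have hx0 : 0 < x := by linarith
  have hlogb : Real.logb 2 x = i := by
    rw [hx, Real.logb_pow, Real.logb_self_eq_one (by norm_num), mul_one]
  obtain ⟨E, hEd⟩ : ∃ E : ℝ, E = Real.exp (-(δ / (4000 * τ))) := ⟨_, rfl⟩
  rw [← hEd] at hE h
  have hk := h x hx1 j (by rw [hlogb]; exact hj)
  by_cases hcost : η * Real.log x ≤ j * g a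
  · have hexp : Real.exp (-(j * g a)) ≤ x ^ (-η) := by
      rw [Real.rpow_def_of_pos hx0]
      apply Real.exp_le_exp.2
      linarith
    have hfinal : C * x ^ (1 + E) * Real.exp (-(j * g a)) ≤ C * x ^ (1 - η + e0) := by
      calc C * x ^ (1 + E) * Real.exp (-(j * g a)) ≤ C * x ^ (1 + E) * x ^ (-η) :=
            mul_le_mul_of_nonneg_left hexp (by positivity)
        _ = C * x ^ (1 + E + -η) := by rw [mul_assoc, ← Real.rpow_add hx0]
        _ ≤ C * x ^ (1 - η + e0) := by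
            apply mul_le_mul_of_nonneg_left _ hC.le
            exact Real.rpow_le_rpow_of_exponent_le hx1 (by linarith)
    have hu : ((2 ^ i : ℕ) : ℝ) = x := by rw [hx]; push_cast; rfl
    obtain ⟨S1, hS1⟩ : ∃ S1 : Set ℕ, S1 = {n : ℕ | 2 ^ i < n ∧ (n : ℝ) ≤ ((2 ^ i : ℕ) : ℝ) + x ∧
      (n : ℝ) * Real.exp (-(a * j)) ≤ (T^[j] n : ℕ)} := ⟨_, rfl⟩
    obtain ⟨S2, hS2⟩ : ∃ S2 : Set ℕ, S2 = {n : ℕ | 2 ^ i < n ∧ (n : ℝ) ≤ ((2 ^ i : ℕ) : ℝ) + x ∧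
      (T^[j] n : ℕ) ≤ (n : ℝ) * Real.exp (-(a * j))} := ⟨_, rfl⟩
    have hfin : ∀ P : ℕ → Prop, {n : ℕ | 2 ^ i < n ∧ (n : ℝ) ≤ ((2 ^ i : ℕ) : ℝ) + x ∧ P n}.Finite := by
      intro P
      apply (Set.finite_Icc 0 (2 ^ (i + 1))).subset
      rintro n ⟨-, h2, -⟩
      rw [Set.mem_Icc]
      refine ⟨Nat.zero_le _, ?_⟩
      rw [hu, hx] at h2
      have h3 : (n : ℝ) ≤ ((2 ^ (i + 1) : ℕ) : ℝ) := by
        push_cast
        rw [pow_succ]
        linarith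
      exact_mod_cast h3
    have hmem : ∀ n ∈ Ioc ((2 : ℕ) ^ i) ((2 : ℕ) ^ (i + 1)), 2 ^ i < n ∧ (n : ℝ) ≤ ((2 ^ i : ℕ) : ℝ) + x := by
      intro n hn
      rw [Finset.mem_Ioc] at hn
      refine ⟨hn.1, ?_⟩
      have h3 : (n : ℝ) ≤ ((2 ^ (i + 1) : ℕ) : ℝ) := by exact_mod_cast hn.2
      rw [hu, hx]
      push_cast at h3
      rw [pow_succ] at h3
      linarith
    have hb1 : -Real.log (3 / 2) + δ ≤ a → a ≤ 1 / 2 * Real.log (4 / 3) → (S1.ncard : ℝ) ≤ C * x ^ (1 - η + e0) := by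
      intro h1 h2
      rw [hS1]
      exact (hk.1 a h1 h2 (2 ^ i) (by rw [hu])).trans hfinal
    have hb2 : 1 / 2 * Real.log (4 / 3) ≤ a → a ≤ Real.log 2 - δ → (S2.ncard : ℝ) ≤ C * x ^ (1 - η + e0) := by
      intro h1 h2
      rw [hS2]
      exact (hk.2 a h1 h2 (2 ^ i)).trans hfinal
    have hpos : 0 ≤ C * x ^ (1 - η + e0) := by positivity
    obtain ⟨F, hF⟩ : ∃ F : Finset ℕ, F = (Ioc ((2 : ℕ) ^ i) ((2 : ℕ) ^ (i + 1))).filter (fun n : ℕ => η * Real.log n ≤ j * g a ∧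
      ((-Real.log (3 / 2) + δ ≤ a ∧ a ≤ 1 / 2 * Real.log (4 / 3) ∧ (n : ℝ) * Real.exp (-(a * j)) ≤ (T^[j] n : ℕ)) ∨
      (1 / 2 * Real.log (4 / 3) ≤ a ∧ a ≤ Real.log 2 - δ ∧ ((T^[j] n : ℕ) : ℝ) ≤ n * Real.exp (-(a * j))))) := ⟨_, rfl⟩
    rw [← hx]
    refine le_trans (le_of_eq (by rw [← hF])) (?_ : (F.card : ℝ) ≤ 2 * C * x ^ (1 - η + e0))
    by_cases c1 : -Real.log (3 / 2) + δ ≤ a ∧ a ≤ 1 / 2 * Real.log (4 / 3)
    · by_cases c2 : 1 / 2 * Real.log (4 / 3) ≤ a ∧ a ≤ Real.log 2 - δ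
      · have hsub : (F : Set ℕ) ⊆ S1 ∪ S2 := by
          intro n hn
          rw [Finset.mem_coe, hF, Finset.mem_filter] at hn
          obtain ⟨k1, k2⟩ := hmem n hn.1
          rcases hn.2.2 with k3 | k3
          · left; rw [hS1]; exact ⟨k1, k2, k3.2.2⟩
          · right; rw [hS2]; exact ⟨k1, k2, k3.2.2⟩
        have h3 := (Set.ncard_le_ncard hsub ((by rw [hS1]; exact hfin _ : S1.Finite).union
          (by rw [hS2]; exact hfin _))).trans (Set.ncard_union_le _ _)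
        rw [Set.ncard_coe_finset] at h3
        have h4 : (F.card : ℝ) ≤ S1.ncard + S2.ncard := by exact_mod_cast h3
        linarith [hb1 c1.1 c1.2, hb2 c2.1 c2.2]
      · have hsub : (F : Set ℕ) ⊆ S1 := by
          intro n hn
          rw [Finset.mem_coe, hF, Finset.mem_filter] at hn
          obtain ⟨k1, k2⟩ := hmem n hn.1
          rcases hn.2.2 with k3 | k3
          · rw [hS1]; exact ⟨k1, k2, k3.2.2⟩
          · exact absurd ⟨k3.1, k3.2.1⟩ c2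
        have h3 := Set.ncard_le_ncard hsub (by rw [hS1]; exact hfin _)
        rw [Set.ncard_coe_finset] at h3
        have h4 : (F.card : ℝ) ≤ S1.ncard := by exact_mod_cast h3
        linarith [hb1 c1.1 c1.2]
    · have hsub : (F : Set ℕ) ⊆ S2 := by
        intro n hn
        rw [Finset.mem_coe, hF, Finset.mem_filter] at hn
        obtain ⟨k1, k2⟩ := hmem n hn.1
        rcases hn.2.2 with k3 | k3
        · exact absurd ⟨k3.1, k3.2.1⟩ c1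
        · rw [hS2]; exact ⟨k1, k2, k3.2.2⟩
      have h3 := Set.ncard_le_ncard hsub (by rw [hS2]; exact hfin _)
      rw [Set.ncard_coe_finset] at h3
      have h4 : (F.card : ℝ) ≤ S2.ncard := by exact_mod_cast h3
      by_cases c2 : 1 / 2 * Real.log (4 / 3) ≤ a ∧ a ≤ Real.log 2 - δ
      · linarith [hb2 c2.1 c2.2]
      · have hFe : F = ∅ := by
          rw [hF, Finset.filter_eq_empty_iff]
          rintro n - ⟨-, k3 | k3⟩
          · exact c1 ⟨k3.1, k3.2.1⟩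
          · exact c2 ⟨k3.1, k3.2.1⟩
        rw [hFe, Finset.card_empty]
        push_cast
        positivity
  · have hFe : ((Ioc ((2 : ℕ) ^ i) ((2 : ℕ) ^ (i + 1))).filter (fun n : ℕ => η * Real.log n ≤ j * g a ∧
      ((-Real.log (3 / 2) + δ ≤ a ∧ a ≤ 1 / 2 * Real.log (4 / 3) ∧ (n : ℝ) * Real.exp (-(a * j)) ≤ (T^[j] n : ℕ)) ∨
      (1 / 2 * Real.log (4 / 3) ≤ a ∧ a ≤ Real.log 2 - δ ∧ ((T^[j] n : ℕ) : ℝ) ≤ n * Real.exp (-(a * j)))))) = ∅ := by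
      rw [Finset.filter_eq_empty_iff]
      rintro n hn ⟨h1, -⟩
      rw [Finset.mem_Ioc] at hn
      apply hcost
      refine le_trans ?_ h1
      apply mul_le_mul_of_nonneg_left _ hη
      apply Real.log_le_log hx0
      rw [hx]
      exact_mod_cast hn.1.le
    rw [hFe, Finset.card_empty]
    push_cast
    positivity

end Pool.Agent.N60.MR
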