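import Mathlib
import Pool.Agent.N60.MR.Rate

set_option autoImplicit false

/-! All slopes at once, by a grid (helper60). -/

namespace Pool.Agent.N60.MR

open Finset
open Pool.Agent.Results.MP_f7abf1_nt (ModelRates.result)
open Pool.Agent.Results.MP_f7abf1_nt.ModelRates (T g)

lemma mid_le : 1 / 2 * Real.log (4 / 3) ≤ Real.log 2 - 1 / 4 := by
  have h1 := Real.log_two_gt_d9
  have h2 : Real.log (4 / 3) ≤ 4 / 3 - 1 := Real.log_le_sub_one_of_pos (by norm_num)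
  linarith

lemma mid_ge : -Real.log (3 / 2) + 1 / 4 ≤ 1 / 2 * Real.log (4 / 3) := by
  have h1 : 0 ≤ Real.log (4 / 3) := Real.log_nonneg (by norm_num)
  have h2 : 1 / 4 ≤ Real.log (3 / 2) := by
    rw [Real.le_log_iff_exp_le (by norm_num)]
    have h3 : Real.exp (1 / 4) ≤ 1 / (1 - 1 / 4) := by
      have := Real.exp_bound_div_one_sub_of_interval (x := 1 / 4) (by norm_num) (by norm_num)
      exact this
    refine h3.trans ?_
    norm_num
  linarith

/-- a grid point towards the middle -/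
lemma grid {lo hi : ℝ} (M : ℕ) (hM : 1 ≤ M) {a : ℝ} (h1 : lo ≤ a) (h2 : a ≤ hi) :
    ∃ m : ℕ, m ≤ M ∧ a ≤ lo + m * ((hi - lo) / M) ∧ lo + m * ((hi - lo) / M) ≤ hi ∧
      lo + m * ((hi - lo) / M) - a ≤ (hi - lo) / M := by
  have hM0 : (0 : ℝ) < M := by exact_mod_cast hM
  rcases eq_or_lt_of_le (h1.trans h2) with h | h
  · have e : hi - lo = 0 := by linarith
    refine ⟨0, Nat.zero_le _, ?_, ?_, ?_⟩ <;> rw [e] <;> simp <;> linarith
  · have hr : 0 < (hi - lo) / M := div_pos (by linarith) hM0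
    obtain ⟨m, hm⟩ : ∃ m : ℕ, m = ⌈(a - lo) / ((hi - lo) / M)⌉₊ := ⟨_, rfl⟩
    have e1 : (a - lo) / ((hi - lo) / M) ≤ m := by rw [hm]; exact Nat.le_ceil _
    have e0 : 0 ≤ (a - lo) / ((hi - lo) / M) := div_nonneg (by linarith) hr.le
    have e2 : (m : ℝ) < (a - lo) / ((hi - lo) / M) + 1 := by rw [hm]; exact Nat.ceil_lt_add_one e0
    have e3 : m ≤ M := by
      rw [hm, Nat.ceil_le, div_le_iff₀ hr]
      have : (M : ℝ) * ((hi - lo) / M) = hi - lo := by field_simp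
      rw [this]; linarith
    rw [div_le_iff₀ hr] at e1
    have e4 : ((m : ℝ) - 1) * ((hi - lo) / M) < a - lo := by
      rw [← lt_div_iff₀ hr]; linarith
    refine ⟨m, e3, by linarith, ?_, by linarith⟩
    have h5 : (m : ℝ) * ((hi - lo) / M) ≤ M * ((hi - lo) / M) :=
      mul_le_mul_of_nonneg_right (by exact_mod_cast e3) hr.le
    have h6 : (M : ℝ) * ((hi - lo) / M) = hi - lo := by field_simp
    linarith

/-- the same from above -/
lemma grid' {lo hi : ℝ} (M : ℕ) (hM : 1 ≤ M) {a : ℝ} (h1 : lo ≤ a) (h2 : a ≤ hi) :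
    ∃ m : ℕ, m ≤ M ∧ hi - m * ((hi - lo) / M) ≤ a ∧ lo ≤ hi - m * ((hi - lo) / M) ∧
      a - (hi - m * ((hi - lo) / M)) ≤ (hi - lo) / M := by
  obtain ⟨m, k1, k2, k3, k4⟩ := grid (lo := -hi) (hi := -lo) M hM (a := -a) (by linarith) (by linarith)
  have e : (-lo - -hi) = hi - lo := by ring
  rw [e] at k2 k3 k4
  exact ⟨m, k1, by linarith, by linarith, by linarith⟩

open Classical in
/-- all slopes, one dyadic interval -/
theorem all_slopes {δ η e0 : ℝ} (hδ : 0 < δ) (hδ1 : δ ≤ 1 / 4) (hη : 0 < η) (he0 : 0 < e0) :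
    ∃ τ : ℝ, 0 < τ ∧ τ ≤ 1 ∧ ∃ C : ℝ, 0 < C ∧ ∀ i j : ℕ, (j : ℝ) ≤ (1 + τ) * i →
      (((Ioc ((2 : ℕ) ^ i) ((2 : ℕ) ^ (i + 1))).filter (fun n : ℕ => Bad δ η j n)).card : ℝ) ≤
        C * ((2 : ℝ) ^ i) ^ (1 - η + e0) := by
  have hl2 := Real.log_two_gt_d9
  have hl2' := Real.log_two_lt_d9
  -- parameters
  obtain ⟨e1, he1⟩ : ∃ e1 : ℝ, e1 = min (e0 / 2) (η / 2) := ⟨_, rfl⟩
  have he1a : 0 < e1 := by rw [he1]; exact lt_min (by linarith) (by linarith)
  have he1b : e1 ≤ e0 / 2 := by rw [he1]; exact min_le_left _ _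
  have he1c : e1 ≤ η / 2 := by rw [he1]; exact min_le_right _ _
  obtain ⟨τ, hτ⟩ : ∃ τ : ℝ, τ = min (δ / 1000000) (δ * e1 / 4000) := ⟨_, rfl⟩
  have hτ0 : 0 < τ := by rw [hτ]; exact lt_min (by positivity) (by positivity)
  have hτa : τ ≤ δ / 1000000 := by rw [hτ]; exact min_le_left _ _
  have hτb : τ ≤ δ * e1 / 4000 := by rw [hτ]; exact min_le_right _ _
  have hτ1 : τ ≤ 1 := by linarith
  obtain ⟨C, hC, h⟩ := ModelRates.result δ τ hδ hδ1 hτ0 hτa
  have hE : Real.exp (-(δ / (4000 * τ))) ≤ e1 := by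
    apply exp_le_of he1a
    rw [div_le_div_iff₀ he1a (by positivity)]
    have : 4000 * τ ≤ δ * e1 := by linarith
    linarith
  -- the grid
  obtain ⟨lo, hlo⟩ : ∃ lo : ℝ, lo = -Real.log (3 / 2) + δ := ⟨_, rfl⟩
  obtain ⟨md, hmd⟩ : ∃ md : ℝ, md = 1 / 2 * Real.log (4 / 3) := ⟨_, rfl⟩
  obtain ⟨hi, hhi⟩ : ∃ hi : ℝ, hi = Real.log 2 - δ := ⟨_, rfl⟩
  have hlm : lo ≤ md := by rw [hlo, hmd]; linarith [mid_ge]
  have hmh : md ≤ hi := by rw [hmd, hhi]; linarith [mid_le]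
  have hlen1 : md - lo ≤ 1 := by
    rw [hlo, hmd]
    have h2 : Real.log (4 / 3) ≤ 4 / 3 - 1 := Real.log_le_sub_one_of_pos (by norm_num)
    have h3 : Real.log (3 / 2) ≤ 3 / 2 - 1 := Real.log_le_sub_one_of_pos (by norm_num)
    linarith
  have hlen2 : hi - md ≤ 1 := by
    rw [hhi, hmd]
    have h1 : 0 ≤ Real.log (4 / 3) := Real.log_nonneg (by norm_num)
    linarith
  obtain ⟨M, hM⟩ : ∃ M : ℕ, M = ⌈6 / (δ * e1)⌉₊ + 1 := ⟨_, rfl⟩
  have hM1 : 1 ≤ M := by omega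
  have hM0 : (0 : ℝ) < M := by exact_mod_cast hM1
  have hMb : 6 / (δ * e1) ≤ M := by
    rw [hM]
    push_cast
    linarith [Nat.le_ceil (6 / (δ * e1))]
  have hMc : 6 / δ * (1 / M) ≤ e1 := by
    rw [div_le_iff₀ (by positivity)] at hMb
    rw [div_mul_div_comm, mul_one, div_le_iff₀ (by positivity)]
    nlinarith
  refine ⟨τ, hτ0, hτ1, (2 * (M + 1)) * (2 * C), by positivity, fun i j hj => ?_⟩
  obtain ⟨x, hx⟩ : ∃ x : ℝ, x = (2 : ℝ) ^ i := ⟨_, rfl⟩
  have hx1 : 1 ≤ x := by rw [hx]; exact one_le_pow₀ (by norm_num)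
  have hx0 : 0 < x := by linarith
  -- the sets for one slope
  obtain ⟨F, hF⟩ : ∃ F : ℝ → Finset ℕ, F = fun a => (Ioc ((2 : ℕ) ^ i) ((2 : ℕ) ^ (i + 1))).filter
      (fun n : ℕ => (η - e1) * Real.log n ≤ j * g a ∧
      ((-Real.log (3 / 2) + δ ≤ a ∧ a ≤ 1 / 2 * Real.log (4 / 3) ∧ (n : ℝ) * Real.exp (-(a * j)) ≤ (T^[j] n : ℕ)) ∨
      (1 / 2 * Real.log (4 / 3) ≤ a ∧ a ≤ Real.log 2 - δ ∧ ((T^[j] n : ℕ) : ℝ) ≤ n * Real.exp (-(a * j))))) := ⟨_, rfl⟩
  have hFb : ∀ a : ℝ, ((F a).card : ℝ) ≤ 2 * C * x ^ (1 - η + e0) := by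
    intro a
    have h1 := one_slope hE hC h (η := η - e1) (by linarith) i j hj a
    rw [hF]
    refine h1.trans ?_
    rw [← hx]
    apply mul_le_mul_of_nonneg_left _ (by positivity)
    apply Real.rpow_le_rpow_of_exponent_le hx1
    linarith
  -- covering by the grid
  have hcost : ∀ (n : ℕ) (a b : ℝ), n ∈ Ioc ((2 : ℕ) ^ i) ((2 : ℕ) ^ (i + 1)) → lo ≤ a → a ≤ hi → lo ≤ b → b ≤ hi →
      |a - b| ≤ 1 / M → η * Real.log n ≤ j * g a → (η - e1) * Real.log n ≤ j * g b := by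
    intro n a b hn h1 h2 h3 h4 h5 h6
    rw [Finset.mem_Ioc] at hn
    rw [hlo] at h1 h3
    rw [hhi] at h2 h4
    have h7 := g_lip h1 h2 h3 h4 hδ
    have hj0 : (0 : ℝ) ≤ j := Nat.cast_nonneg j
    have hlogn : (i : ℝ) * Real.log 2 ≤ Real.log n := by
      rw [← Real.log_pow]
      apply Real.log_le_log (by positivity)
      exact_mod_cast hn.1.le
    have hi0 : (0 : ℝ) ≤ i := Nat.cast_nonneg i
    have hlogn0 : 0 ≤ Real.log n := le_trans (by positivity) hlogn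
    have h8 : (j : ℝ) * (2 / δ * |a - b|) ≤ e1 * Real.log n := by
      have k1 : (j : ℝ) ≤ 3 * Real.log n := by nlinarith
      calc (j : ℝ) * (2 / δ * |a - b|) ≤ (3 * Real.log n) * (2 / δ * (1 / M)) := by
            apply mul_le_mul k1 _ (by positivity) (by positivity)
            exact mul_le_mul_of_nonneg_left h5 (by positivity)
        _ = (6 / δ * (1 / M)) * Real.log n := by ring
        _ ≤ e1 * Real.log n := mul_le_mul_of_nonneg_right hMc hlogn0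
    nlinarith
  have hcov : (Ioc ((2 : ℕ) ^ i) ((2 : ℕ) ^ (i + 1))).filter (fun n : ℕ => Bad δ η j n) ⊆
      (range (M + 1)).biUnion (fun m => F (lo + m * ((md - lo) / M))) ∪
      (range (M + 1)).biUnion (fun m => F (hi - m * ((hi - md) / M))) := by
    intro n hn
    rw [Finset.mem_filter] at hn
    obtain ⟨hn1, a, ha0, ha⟩ := hn
    have hj0 : (0 : ℝ) ≤ j := Nat.cast_nonneg j
    have hn0 : (0 : ℝ) ≤ n := Nat.cast_nonneg n
    rw [Finset.mem_union]
    rcases ha with ⟨a1, a2, a3⟩ | ⟨a1, a2, a3⟩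
    · left
      rw [← hlo] at a1
      rw [← hmd] at a2
      obtain ⟨m, k1, k2, k3, k4⟩ := grid M hM1 a1 a2
      obtain ⟨b, hb⟩ : ∃ b : ℝ, b = lo + m * ((md - lo) / M) := ⟨_, rfl⟩
      rw [← hb] at k2 k3 k4
      rw [Finset.mem_biUnion]
      refine ⟨m, Finset.mem_range.2 (by omega), ?_⟩
      rw [← hb, hF, Finset.mem_filter]
      refine ⟨hn1, ?_, Or.inl ⟨by rw [← hlo]; linarith, by rw [← hmd]; exact k3, ?_⟩⟩
      · refine hcost n a b hn1 a1 (a2.trans hmh) (a1.trans k2) (k3.trans hmh) ?_ ha0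
        rw [abs_sub_comm, abs_of_nonneg (by linarith)]
        refine k4.trans ?_
        exact div_le_div_of_nonneg_right hlen1 hM0.le
      · refine le_trans ?_ a3
        apply mul_le_mul_of_nonneg_left _ hn0
        apply Real.exp_le_exp.2
        nlinarith
    · right
      rw [← hmd] at a1
      rw [← hhi] at a2
      obtain ⟨m, k1, k2, k3, k4⟩ := grid' M hM1 a1 a2
      obtain ⟨b, hb⟩ : ∃ b : ℝ, b = hi - m * ((hi - md) / M) := ⟨_, rfl⟩
      rw [← hb] at k2 k3 k4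
      rw [Finset.mem_biUnion]
      refine ⟨m, Finset.mem_range.2 (by omega), ?_⟩
      rw [← hb, hF, Finset.mem_filter]
      refine ⟨hn1, ?_, Or.inr ⟨by rw [← hmd]; exact k3, by rw [← hhi]; linarith, ?_⟩⟩
      · refine hcost n a b hn1 (hlm.trans a1) a2 (hlm.trans k3) (k2.trans a2) ?_ ha0
        rw [abs_of_nonneg (by linarith)]
        refine k4.trans ?_
        exact div_le_div_of_nonneg_right hlen2 hM0.le
      · refine a3.trans ?_
        apply mul_le_mul_of_nonneg_left _ hn0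
        apply Real.exp_le_exp.2
        nlinarith
  have hsum : ∀ b : ℕ → ℝ, ((((range (M + 1)).biUnion (fun m => F (b m))).card : ℕ) : ℝ) ≤
      (M + 1) * (2 * C * x ^ (1 - η + e0)) := by
    intro b
    have h1 : (((range (M + 1)).biUnion (fun m => F (b m))).card : ℝ) ≤ ∑ m ∈ range (M + 1), ((F (b m)).card : ℝ) := by
      exact_mod_cast Finset.card_biUnion_le
    refine h1.trans ((Finset.sum_le_card_nsmul _ _ _ (fun m _ => hFb (b m))).trans ?_)
    rw [nsmul_eq_mul, Finset.card_range]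
    push_cast
    exact le_refl _
  have h1 := (Finset.card_le_card hcov).trans (Finset.card_union_le _ _)
  have h2 : (((Ioc ((2 : ℕ) ^ i) ((2 : ℕ) ^ (i + 1))).filter (fun n : ℕ => Bad δ η j n)).card : ℝ) ≤
      (((range (M + 1)).biUnion (fun m => F (lo + m * ((md - lo) / M)))).card : ℝ) +
      (((range (M + 1)).biUnion (fun m => F (hi - m * ((hi - md) / M)))).card : ℝ) := by exact_mod_cast h1
  have h3 := hsum (fun m => lo + m * ((md - lo) / M))
  have h4 := hsum (fun m => hi - m * ((hi - md) / M))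
  rw [← hx]
  calc _ ≤ _ := h2
    _ ≤ (M + 1) * (2 * C * x ^ (1 - η + e0)) + (M + 1) * (2 * C * x ^ (1 - η + e0)) := by linarith
    _ = _ := by ring

end Pool.Agent.N60.MR
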